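import Pool.Agent.H68.LCS.Targets

/-! Row A_BFX of the board `lpq_modules` (problem MP_5607ba_lc): a countable base. -/

set_option autoImplicit false

open Set Filter Topology
open scoped Pointwise

namespace Pool.Agent.H1.LCS

open Pool.Agent.H93.CP Pool.Agent.H7.LP Pool.Agent.H7.LQ Pool.Agent.H68.LCS

theorem pf_BFX : T_BFX := by
  intro F _ _ _
  obtain ⟨b, hb, -, hbas⟩ := TopologicalSpace.exists_countable_basis F
  obtain ⟨U, hU⟩ := (hb.insert ∅).exists_eq_range (insert_nonempty _ _)
  refine ⟨⟨U, fun t => ?_, fun y O hO => ?_⟩⟩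
  · have h1 : U t ∈ insert ∅ b := by
      rw [hU]
      exact mem_range_self t
    rcases h1 with h1 | h1
    · rw [h1]
      exact isOpen_empty
    · exact hbas.isOpen h1
  · obtain ⟨s, hs, hy, hsO⟩ := hbas.exists_closure_subset hO
    have h1 : s ∈ insert ∅ b := mem_insert_of_mem _ hs
    rw [hU] at h1
    obtain ⟨t, rfl⟩ := h1
    exact ⟨t, hy, hsO⟩

end Pool.Agent.H1.LCS
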