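import Pool.Agent.H68.LCS.Targets

/-! Row A_LCO of the board `lpq_modules` (problem MP_5607ba_lc): `YY` and the selected point are
locally constant on the orbits. -/

set_option autoImplicit false

open Set Filter Topology
open scoped Pointwise

namespace Pool.Agent.H1.LCS

open Pool.Agent.H93.CP Pool.Agent.H7.LP Pool.Agent.H7.LQ Pool.Agent.H68.LCS

theorem pf_LCO (h1 : T_PTX) (h2 : T_KEQ) (h3 : T_KCP) : T_LCO := by
  intro Γ F _ _ _ _ _ _ _ D B t y hy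
  -- points of `YY` are in `XX`
  have hYX : ∀ y' ∈ YY D B t, y' ∈ XX D B t := by
    intro y' hy'
    obtain ⟨p, hp⟩ := hy'
    obtain ⟨c, hc, hc'⟩ := D.cov p 1 (D.one p)
    have h4 := hp c hc
    rwa [← hc', one_smul] at h4
  have hyX := hYX y hy
  obtain ⟨hK, hyK, -, -, -, hW⟩ := h3 Γ F D B t y
  obtain ⟨z, hz, hz1, hz2, -⟩ := h1 F B (KS D B t y) hK ⟨y, hyK hyX⟩
  have hslp : ∀ d, slp B (KS D B t y) d = z := by
    intro d
    unfold slp
    have h4 : ∃ z, ∀ n, z ∈ sl B (KS D B t y) n := ⟨z, hz1⟩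
    rw [dif_pos h4]
    exact hz2 _ h4.choose_spec
  refine ⟨hyX, ?_, ?_⟩
  · obtain ⟨-, h, -, hh⟩ := hz
    refine ⟨h, ?_⟩
    unfold ss
    rw [hslp]
    exact hh
  · obtain ⟨p, hp⟩ := hy
    obtain ⟨V, hV, hV1, hVV⟩ := exists_open_nhds_one_mul_subset ((D.opn p).mem_nhds (D.one p))
    obtain ⟨p', hp'⟩ := D.sml V (hV.mem_nhds hV1)
    refine ⟨V ∩ D.W 0, inter_mem (hV.mem_nhds hV1) ((D.opn 0).mem_nhds (D.one 0)), ?_⟩
    rintro g ⟨hg, hg0⟩
    have hgY : g • y ∈ YY D B t := by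
      refine ⟨p', fun c hc => ?_⟩
      obtain ⟨o, ho, ho'⟩ := hp' c hc
      rw [ho', ← mul_smul]
      obtain ⟨c', hc', hc''⟩ := D.cov p (o * g) (hVV (mul_mem_mul ho hg))
      rw [hc'']
      exact hp c' hc'
    refine ⟨hgY, ?_⟩
    obtain ⟨c, hc, hc'⟩ := hW g hg0
    have h4 := hYX _ hgY
    rw [hc'] at h4
    have h5 := h2 Γ F D B t y c hc hyX h4
    unfold ss
    rw [hslp, hc', h5, hslp]

end Pool.Agent.H1.LCS
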